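import Pool.Agent.V11176.Braid.Words

set_option autoImplicit false

open Finset

namespace V11176.Braid

section words
variable {B W : Type*} [Group W] {M : CoxeterMatrix B} (cs : CoxeterSystem M W)

theorem pos_inj {v : List B} {z z' : W} (hz : z ∈ cs.leftInvSeq v) (h : pos cs v z = pos cs v z') :
    z = z' := by
  classical
  unfold pos at h
  exact (List.idxOf_inj hz).1 h

theorem Info.symm {c : ℕ} {v w : List B} {x b y : W} (h : Info cs c v w x b y) :
    Info cs c w v y b x where
  mv := h.mv.symm
  vx := h.wy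
  vb := h.wb
  vy := h.wx
  wx := h.vy
  wb := h.vb
  wy := h.vx
  oth z h1 h2 := (h.oth z h2 h1).symm
  r1 := h.r6
  r2 := h.r5
  r3 := h.r4
  r4 := h.r3
  r5 := h.r2
  r6 := h.r1
  mx := (h.perm.mem_iff).1 h.my
  mb := (h.perm.mem_iff).1 h.mb
  my := (h.perm.mem_iff).1 h.mx
  perm := h.perm.symm

/-- `b` is between `x` and `y` -/
def Mid (v : List B) (x b y : W) : Prop :=
  (pos cs v x < pos cs v b ∧ pos cs v b < pos cs v y) ∨
  (pos cs v y < pos cs v b ∧ pos cs v b < pos cs v x)

theorem mid_step {c : ℕ} {v w : List B} {x' b' y' : W} (hI : Info cs c v w x' b' y')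
    {x b y : W} (r1 : x * b * x = y) (r3 : x * y * x = b) (r5 : b * y * b = x)
    (hm : Mid cs v x b y) : Mid cs w x b y := by
  have hin : ∀ z, (z = x' ∨ z = b' ∨ z = y') →
      pos cs v z + pos cs w z = 2 * c ∧ c ≤ pos cs v z + 1 ∧ pos cs v z ≤ c + 1 := by
    have := hI.vx
    have := hI.vb
    have := hI.vy
    have := hI.wx
    have := hI.wb
    have := hI.wy
    rintro z (rfl | rfl | rfl) <;> omega
  have hout : ∀ z, ¬ (z = x' ∨ z = b' ∨ z = y') →
      pos cs w z = pos cs v z ∧ (pos cs v z + 1 < c ∨ c + 1 < pos cs v z) := by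
    intro z hz
    push Not at hz
    obtain ⟨h1, h2, h3⟩ := hz
    refine ⟨hI.oth z h1 h3, ?_⟩
    have a1 : pos cs v z ≠ pos cs v x' := fun h => h1 (pos_inj cs hI.mx h.symm).symm
    have a2 : pos cs v z ≠ pos cs v b' := fun h => h2 (pos_inj cs hI.mb h.symm).symm
    have a3 : pos cs v z ≠ pos cs v y' := fun h => h3 (pos_inj cs hI.my h.symm).symm
    have := hI.vx
    have := hI.vb
    have := hI.vy
    omega
  have hcl : ∀ z1 z2, (z1 = x' ∨ z1 = b' ∨ z1 = y') → (z2 = x' ∨ z2 = b' ∨ z2 = y') → z1 ≠ z2 →
      (z1 * z2 * z1 = x' ∨ z1 * z2 * z1 = b' ∨ z1 * z2 * z1 = y') := by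
    rintro z1 z2 (rfl | rfl | rfl) (rfl | rfl | rfl) hne
    · exact absurd rfl hne
    · right; right; exact hI.r1
    · right; left; exact hI.r3
    · right; right; exact hI.r2
    · exact absurd rfl hne
    · left; exact hI.r5
    · right; left; exact hI.r4
    · left; exact hI.r6
    · exact absurd rfl hne
  unfold Mid at hm ⊢
  have hxb : x ≠ b := by rintro rfl; omega
  have hby : b ≠ y := by rintro rfl; omega
  have hxy : x ≠ y := by rintro rfl; omega
  by_cases hx : x = x' ∨ x = b' ∨ x = y'
  · by_cases hb : b = x' ∨ b = b' ∨ b = y'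
    · have hy := hcl x b hx hb hxb
      rw [r1] at hy
      have := hin x hx
      have := hin b hb
      have := hin y hy
      omega
    · by_cases hy : y = x' ∨ y = b' ∨ y = y'
      · have := hcl x y hx hy hxy
        rw [r3] at this
        exact absurd this hb
      · have := hin x hx
        have := hout b hb
        have := hout y hy
        omega
  · by_cases hb : b = x' ∨ b = b' ∨ b = y'
    · by_cases hy : y = x' ∨ y = b' ∨ y = y'
      · have := hcl b y hb hy hby
        rw [r5] at this
        exact absurd this hx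
      · have := hout x hx
        have := hin b hb
        have := hout y hy
        omega
    · by_cases hy : y = x' ∨ y = b' ∨ y = y'
      · have := hout x hx
        have := hout b hb
        have := hin y hy
        omega
      · have := hout x hx
        have := hout b hb
        have := hout y hy
        omega

/-- a move with center `c` is available -/
def Av (M : CoxeterMatrix B) (c : ℕ) (v : List B) : Prop := ∃ w, Mv M c v w

theorem red_path {a : ℕ → List B} (h0 : cs.IsReduced (a 0)) {n : ℕ}
    (hp : ∀ i, i < n → ∃ c, Mv M c (a i) (a (i + 1))) : ∀ i, i ≤ n → cs.IsReduced (a i) := by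
  intro i
  induction i with
  | zero => intro _; exact h0
  | succ i ih =>
    intro hi
    obtain ⟨c, hc⟩ := hp i (by omega)
    exact red_mv cs hc (ih (by omega))

theorem nocons_path : ∀ (n : ℕ) (a : ℕ → List B), cs.IsReduced (a 0) →
    (∀ i, i < n → ∃ c, Mv M c (a i) (a (i + 1))) → ∀ c, Av M c (a 0) → Av M (c + 1) (a n) → False := by
  intro n
  induction n using Nat.strong_induction_on with
  | _ n ih =>
  intro a h0 hp c h1 h2
  have hred := red_path cs h0 hp
  -- reversed version of the induction hypothesis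
  have ih' : ∀ i j, i ≤ j → j ≤ n → j - i < n → ∀ d, Av M (d + 1) (a i) → Av M d (a j) → False := by
    intro i j hij hjn hlt d h3 h4
    refine ih (j - i) hlt (fun k => a (j - k)) (by simpa using hred j hjn) ?_ d (by simpa using h4) ?_
    · intro k hk
      obtain ⟨e, he⟩ := hp (j - k - 1) (by omega)
      refine ⟨e, ?_⟩
      have := he.symm
      rw [show j - k - 1 + 1 = j - k by omega] at this
      exact this
    · rw [show j - (j - i) = i by omega]
      exact h3
  have ihf : ∀ i j, i ≤ j → j ≤ n → j - i < n → ∀ d, Av M d (a i) → Av M (d + 1) (a j) → False := by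
    intro i j hij hjn hlt d h3 h4
    refine ih (j - i) hlt (fun k => a (i + k)) (by simpa using hred i (by omega)) ?_ d
      (by simpa using h3) ?_
    · intro k hk
      exact hp (i + k) (by omega)
    · rw [show i + (j - i) = j by omega]
      exact h4
  obtain ⟨w1, hw1⟩ := h1
  obtain ⟨x, b, y, hI⟩ := info cs hw1 h0
  have key : ∀ i, i ≤ n → pos cs (a i) b = c ∧ pos cs (a i) y = c + 1 ∧ Mid cs (a i) x b y := by
    intro i
    induction i with
    | zero =>
      intro _
      refine ⟨hI.vb, hI.vy, ?_⟩
      left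
      have := hI.vx
      have := hI.vb
      have := hI.vy
      omega
    | succ i ihi =>
      intro hi
      obtain ⟨k1, k2, k3⟩ := ihi (by omega)
      obtain ⟨e, he⟩ := hp i (by omega)
      obtain ⟨x', b', y', hI'⟩ := info cs he (hred i (by omega))
      have q1 : e ≠ c + 1 := by
        rintro rfl
        exact ihf 0 i (by omega) (by omega) (by omega) c ⟨w1, hw1⟩ ⟨_, he⟩
      have q2 : e + 1 ≠ c := by
        rintro rfl
        exact ih' 0 i (by omega) (by omega) (by omega) e ⟨w1, hw1⟩ ⟨_, he⟩
      have q3 : e ≠ c := by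
        rintro rfl
        exact ihf (i + 1) n (by omega) (by omega) (by omega) e ⟨_, he.symm⟩ h2
      have q4 : e ≠ c + 2 := by
        rintro rfl
        exact ih' (i + 1) n (by omega) (by omega) (by omega) (c + 1) ⟨_, he.symm⟩ h2
      have := hI'.vx
      have := hI'.vy
      have b1 : b ≠ x' := by rintro rfl; omega
      have b2 : b ≠ y' := by rintro rfl; omega
      have y1 : y ≠ x' := by rintro rfl; omega
      have y2 : y ≠ y' := by rintro rfl; omega
      refine ⟨by rw [hI'.oth b b1 b2]; exact k1, by rw [hI'.oth y y1 y2]; exact k2, ?_⟩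
      exact mid_step cs hI' hI.r1 hI.r3 hI.r5 k3
  obtain ⟨k1, k2, k3⟩ := key n (le_refl n)
  obtain ⟨w2, hw2⟩ := h2
  obtain ⟨x', b', y', hI'⟩ := info cs hw2 (hred n (le_refl n))
  have e1 : x' = b := pos_inj cs hI'.mx (by have := hI'.vx; omega)
  have e2 : b' = y := pos_inj cs hI'.mb (by have := hI'.vb; omega)
  have e3 : y' = x := by
    rw [← hI'.r2, e1, e2]
    exact hI.r6
  have := hI'.vy
  rw [e3] at this
  unfold Mid at k3
  omega

/-- every class is traversed by a path -/
theorem exists_path {v w : List B} (h : Relation.ReflTransGen (BraidMove M) v w) :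
    ∃ (n : ℕ) (a : ℕ → List B), a 0 = v ∧ a n = w ∧ ∀ i, i < n → ∃ c, Mv M c (a i) (a (i + 1)) := by
  induction h using Relation.ReflTransGen.head_induction_on with
  | refl => exact ⟨0, fun _ => w, rfl, rfl, fun i hi => by omega⟩
  | @head a b hab _ ih =>
    obtain ⟨n, f, h0, hn, hp⟩ := ih
    refine ⟨n + 1, fun i => if i = 0 then a else f (i - 1), by simp, by simp [hn], ?_⟩
    intro i hi
    rcases Nat.eq_zero_or_pos i with rfl | hi'
    · simp only [if_true]
      rw [if_neg (by omega), show 0 + 1 - 1 = 0 by omega, h0]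
      exact braidMove_iff.1 hab
    · simp only
      rw [if_neg (by omega), if_neg (by omega), show i + 1 - 1 = i - 1 + 1 by omega]
      exact hp (i - 1) (by omega)

theorem nocons {v w : List B} (hr : cs.IsReduced v) (h : Relation.ReflTransGen (BraidMove M) v w)
    {c : ℕ} (h1 : Av M c v) (h2 : Av M (c + 1) w) : False := by
  obtain ⟨n, a, h0, hn, hp⟩ := exists_path h
  subst h0 hn
  exact nocons_path cs n a hr hp c h1 h2

theorem rtg_symm {v w : List B} (h : Relation.ReflTransGen (BraidMove M) v w) :
    Relation.ReflTransGen (BraidMove M) w v := by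
  induction h with
  | refl => exact Relation.ReflTransGen.refl
  | tail _ hbc ih => exact Relation.ReflTransGen.head hbc.symm ih

theorem red_rtg {v w : List B} (hr : cs.IsReduced v) (h : Relation.ReflTransGen (BraidMove M) v w) :
    cs.IsReduced w := by
  induction h with
  | refl => exact hr
  | tail _ hbc ih =>
    obtain ⟨c, hc⟩ := braidMove_iff.1 hbc
    exact red_mv cs hc ih

theorem center_fixed {v w : List B} (hr : cs.IsReduced v)
    (h : Relation.ReflTransGen (BraidMove M) v w) {c : ℕ} {v' : List B} {x b y : W}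
    (hI : Info cs c v v' x b y) : pos cs w b = c := by
  induction h with
  | refl => exact hI.vb
  | @tail u w hvu huw ih =>
    obtain ⟨e, he⟩ := braidMove_iff.1 huw
    obtain ⟨x', b', y', hI'⟩ := info cs he (red_rtg cs hr hvu)
    have q1 : e ≠ c + 1 := by
      rintro rfl
      exact nocons cs hr hvu ⟨_, hI.mv⟩ ⟨_, he⟩
    have q2 : e + 1 ≠ c := by
      rintro rfl
      exact nocons cs (red_rtg cs hr hvu) (rtg_symm hvu) ⟨_, he⟩ ⟨_, hI.mv⟩
    have := hI'.vx
    have := hI'.vy
    have b1 : b ≠ x' := by rintro rfl; omega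
    have b2 : b ≠ y' := by rintro rfl; omega
    rw [hI'.oth b b1 b2]
    exact ih

theorem perm_rtg {v w : List B} (hr : cs.IsReduced v)
    (h : Relation.ReflTransGen (BraidMove M) v w) :
    (cs.leftInvSeq v).Perm (cs.leftInvSeq w) := by
  induction h with
  | refl => exact List.Perm.refl _
  | @tail u w hvu huw ih =>
    obtain ⟨e, he⟩ := braidMove_iff.1 huw
    obtain ⟨x', b', y', hI'⟩ := info cs he (red_rtg cs hr hvu)
    exact ih.trans hI'.perm

/-- availability of a move -/
theorem avail (hM : ∀ i j, i ≠ j → M i j = 2 ∨ M i j = 3) {v0 w0 v : List B} (hr : cs.IsReduced v0)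
    (h : Relation.ReflTransGen (BraidMove M) v0 v) {c : ℕ} {x b y : W}
    (hI : Info cs c v0 w0 x b y) (hx : pos cs v x + 1 = c) (hy : pos cs v y = c + 1) :
    ∃ w, Info cs c v w x b y := by
  classical
  have hrv := red_rtg cs hr h
  have hb := center_fixed cs hr h hI
  have hperm := perm_rtg cs hr h
  have hmx : x ∈ cs.leftInvSeq v := hperm.mem_iff.1 hI.mx
  have hmb : b ∈ cs.leftInvSeq v := hperm.mem_iff.1 hI.mb
  have hmy : y ∈ cs.leftInvSeq v := hperm.mem_iff.1 hI.my
  have hlen : c + 1 < v.length := by
    rw [← cs.length_leftInvSeq v, ← hy]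
    unfold pos
    exact List.idxOf_lt_length_iff.2 hmy
  -- split the word
  obtain ⟨l₁, s, t, s', l₂, hv, hl⟩ : ∃ (l₁ : List B) (s t s' : B) (l₂ : List B),
      v = l₁ ++ s :: t :: s' :: l₂ ∧ l₁.length + 1 = c := by
    refine ⟨v.take (c - 1), v[c - 1], v[c], v[c + 1], v.drop (c + 2), ?_, ?_⟩
    · have e1 : v.drop (c - 1) = v[c - 1] :: v.drop (c - 1 + 1) := List.drop_eq_getElem_cons (by omega)
      have e2 : v.drop c = v[c] :: v.drop (c + 1) := List.drop_eq_getElem_cons (by omega)
      have e3 : v.drop (c + 1) = v[c + 1] :: v.drop (c + 1 + 1) :=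
        List.drop_eq_getElem_cons (by omega)
      rw [show c - 1 + 1 = c by omega, e2, e3] at e1
      rw [← e1]
      exact (List.take_append_drop (c - 1) v).symm
    · rw [List.length_take]; omega
  subst hv
  have hL := lis_triple cs l₁ l₂ s t s'
  have hnd := hrv.nodup_leftInvSeq
  rw [hL] at hnd
  obtain ⟨a1, a2, a3, _⟩ := idx_swap hnd
  have hll : (cs.leftInvSeq l₁).length = l₁.length := cs.length_leftInvSeq l₁
  set u := cs.wordProd l₁ with hu
  have ex : x = u * cs.simple s * u⁻¹ := by
    apply pos_inj cs hmx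
    have : pos cs (l₁ ++ s :: t :: s' :: l₂) (u * cs.simple s * u⁻¹) = l₁.length := by
      unfold pos; rw [hL, a1, hll]
    omega
  have eb : b = u * (cs.simple s * cs.simple t * cs.simple s) * u⁻¹ := by
    apply pos_inj cs hmb
    have : pos cs (l₁ ++ s :: t :: s' :: l₂) (u * (cs.simple s * cs.simple t * cs.simple s) * u⁻¹) =
        l₁.length + 1 := by
      unfold pos; rw [hL, a2, hll]
    omega
  have ey : y = u * (cs.simple s * cs.simple t * cs.simple s' * cs.simple t * cs.simple s) * u⁻¹ := by
    apply pos_inj cs hmy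
    have : pos cs (l₁ ++ s :: t :: s' :: l₂)
        (u * (cs.simple s * cs.simple t * cs.simple s' * cs.simple t * cs.simple s) * u⁻¹) =
        l₁.length + 2 := by
      unfold pos; rw [hL, a3, hll]
    omega
  have hss := cs.simple_mul_simple_self s
  have htt := cs.simple_mul_simple_self t
  have hlet : s' = s := by
    apply simple_inj M cs hM
    have h1 := hI.r2
    rw [eb, ex, ey] at h1
    have h2 : u * (cs.simple s * cs.simple t * cs.simple s) * u⁻¹ * (u * cs.simple s * u⁻¹) *
        (u * (cs.simple s * cs.simple t * cs.simple s) * u⁻¹) =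
        u * (cs.simple s * cs.simple t * (cs.simple s * cs.simple s) * cs.simple s * cs.simple t *
          cs.simple s) * u⁻¹ := by group
    rw [h2, hss] at h1
    have h3 := mul_left_cancel (mul_right_cancel h1)
    rw [mul_one] at h3
    exact (mul_left_cancel (mul_right_cancel (mul_right_cancel h3))).symm
  subst hlet
  have hM3 : M s' t = 3 := by
    by_cases hst : s' = t
    · subst hst
      exact (not_red cs (by rw [hss, one_mul]) hrv).elim
    · rcases hM s' t hst with h2 | h3
      · exfalso
        refine not_red cs ?_ hrv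
        have h4 := cs.simple_mul_simple_pow s' t
        rw [show M.M s' t = 2 from h2, pow_two] at h4
        calc cs.simple s' * cs.simple t * cs.simple s'
            = (cs.simple s' * cs.simple t * (cs.simple s' * cs.simple t)) * cs.simple t := by
              simp only [mul_assoc]; rw [htt, mul_one]
          _ = cs.simple t := by rw [h4, one_mul]
      · exact h3
  have hmv : Mv M c (l₁ ++ s' :: t :: s' :: l₂) (l₁ ++ t :: s' :: t :: l₂) :=
    ⟨l₁, l₂, s', t, hM3, rfl, rfl, hl⟩
  obtain ⟨x1, b1, y1, hI1⟩ := info cs hmv hrv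
  have f1 : x1 = x := pos_inj cs hI1.mx (by have := hI1.vx; omega)
  have f2 : b1 = b := pos_inj cs hI1.mb (by have := hI1.vb; omega)
  have f3 : y1 = y := pos_inj cs hI1.my (by have := hI1.vy; omega)
  subst f1 f2 f3
  exact ⟨_, hI1⟩

end words

end V11176.Braid
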