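import Mathlib

set_option autoImplicit false

open Finset

namespace V11176.Braid

/-- a connected graph in which every three vertices have a unique median -/
def IsMedianGraph {V : Type*} (G : SimpleGraph V) : Prop :=
  G.Connected ∧ ∀ u v w : V, ∃! m : V, G.dist u m + G.dist m v = G.dist u v ∧
    G.dist v m + G.dist m w = G.dist v w ∧ G.dist u m + G.dist m w = G.dist u w

section
variable {V X : Type*} (G : SimpleGraph V) (p : V → X → ℕ) (S : Finset X) (Mt : ℕ → X → X → Prop)

/-- swap at center `c` of `x` (on the left in `v`) and `y` (on the right in `v`) -/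
structure Step (c : ℕ) (x y : X) (v w : V) : Prop where
  mt : Mt c x y
  vx : p v x + 1 = c
  vy : p v y = c + 1
  wx : p w x = c + 1
  wy : p w y + 1 = c
  oth : ∀ z, z ≠ x → z ≠ y → p w z = p v z

/-- the hypotheses -/
structure Sys : Prop where
  symm : ∀ c x y, Mt c x y → Mt c y x
  uniq : ∀ c x y y', Mt c x y → Mt c x y' → y = y'
  memS : ∀ c x y, Mt c x y → x ∈ S
  nocons : ∀ c x y x' y', Mt c x y → ¬ Mt (c + 1) x' y'
  wit : ∀ c x y, Mt c x y → ∃ v, p v x + 1 = c ∧ p v y = c + 1
  adj : ∀ v w, G.Adj v w → ∃ c x y, Step p Mt c x y v w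
  avail : ∀ v c x y, Mt c x y → p v x + 1 = c → p v y = c + 1 → ∃ w, G.Adj v w ∧ Step p Mt c x y v w
  inj : ∀ v w, (∀ x ∈ S, p v x = p w x) → v = w
  conn : G.Connected

/-- monotone paths -/
inductive Mono : ℕ → V → V → Prop
  | nil (w : V) : Mono 0 w w
  | cons {n : ℕ} {v v' w : V} {c : ℕ} {x y : X} (ha : G.Adj v v') (hs : Step p Mt c x y v v')
      (ht : c < p w x) (hm : Mono n v' w) : Mono (n + 1) v w

/-- total displacement -/
def Dd (v w : V) : ℤ := ∑ x ∈ S, |(p v x : ℤ) - p w x|

variable {G p S Mt} (H : Sys G p S Mt)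
include H

theorem step_symm {c : ℕ} {x y : X} {v w : V} (h : Step p Mt c x y v w) : Step p Mt c y x w v where
  mt := H.symm _ _ _ h.mt
  vx := h.wy
  vy := h.wx
  wx := h.vy
  wy := h.vx
  oth z h1 h2 := (h.oth z h2 h1).symm

theorem opp {c : ℕ} {x y : X} (h : Mt c x y) (v : V) :
    (p v x < c ∧ c < p v y) ∨ (p v y < c ∧ c < p v x) := by
  obtain ⟨v0, h1, h2⟩ := H.wit c x y h
  have hr : Relation.ReflTransGen G.Adj v0 v :=
    (SimpleGraph.reachable_iff_reflTransGen _ _).1 (H.conn.preconnected v0 v)
  induction hr with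
  | refl => left; omega
  | @tail a b _ hab ih =>
    obtain ⟨c', x', y', hs⟩ := H.adj _ _ hab
    have hmt := hs.mt
    have hvx := hs.vx
    have hvy := hs.vy
    have hwx := hs.wx
    have hwy := hs.wy
    by_cases hc : c' = c
    · subst hc
      by_cases hx1 : x = x'
      · subst hx1
        have hy := H.uniq _ _ _ _ h hmt
        subst hy
        omega
      · by_cases hx2 : x = y'
        · subst hx2
          have hy := H.uniq _ _ _ _ h (H.symm _ _ _ hmt)
          subst hy
          omega
        · have hy1 : y ≠ x' := by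
            rintro rfl
            exact hx2 (H.uniq _ _ _ _ (H.symm _ _ _ h) hmt)
          have hy2 : y ≠ y' := by
            rintro rfl
            exact hx1 (H.uniq _ _ _ _ (H.symm _ _ _ h) (H.symm _ _ _ hmt))
          rw [hs.oth x hx1 hx2, hs.oth y hy1 hy2]
          exact ih
    · have hc1 : c' ≠ c + 1 := by
        rintro rfl
        exact H.nocons _ _ _ _ _ h hmt
      have hc2 : c ≠ c' + 1 := by
        rintro rfl
        exact H.nocons _ _ _ _ _ hmt h
      have key : ∀ z, (p b z < c ↔ p a z < c) ∧ (c < p b z ↔ c < p a z) := by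
        intro z
        by_cases hz1 : z = x'
        · subst hz1; omega
        · by_cases hz2 : z = y'
          · subst hz2; omega
          · rw [hs.oth z hz1 hz2]; exact ⟨Iff.rfl, Iff.rfl⟩
      rw [(key x).1, (key x).2, (key y).1, (key y).2]
      exact ih

theorem dd_step {c : ℕ} {x y : X} {v v' : V} (hs : Step p Mt c x y v v') (w : V) (ht : c < p w x) :
    Dd p S v w = Dd p S v' w + 4 := by
  classical
  have ho := opp H hs.mt w
  have hvx := hs.vx
  have hvy := hs.vy
  have hwx := hs.wx
  have hwy := hs.wy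
  have hxy : x ≠ y := by rintro rfl; omega
  have hxS := H.memS _ _ _ hs.mt
  have hyS := H.memS _ _ _ (H.symm _ _ _ hs.mt)
  have h1 : Dd p S v w - Dd p S v' w = ∑ z ∈ S, ((if z = x then (2 : ℤ) else 0) + (if z = y then 2 else 0)) := by
    unfold Dd
    rw [← Finset.sum_sub_distrib]
    refine Finset.sum_congr rfl fun z _ => ?_
    by_cases hz1 : z = x
    · subst hz1
      rw [if_pos rfl, if_neg hxy]
      rcases ho with ho | ho
      · omega
      · rw [abs_of_nonpos (by omega), abs_of_nonpos (by omega)]; omega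
    · by_cases hz2 : z = y
      · subst hz2
        rw [if_neg hz1, if_pos rfl]
        rcases ho with ho | ho
        · omega
        · rw [abs_of_nonneg (by omega), abs_of_nonneg (by omega)]; omega
      · rw [if_neg hz1, if_neg hz2, hs.oth z hz1 hz2]; ring
  rw [Finset.sum_add_distrib, Finset.sum_ite_eq' S x, Finset.sum_ite_eq' S y, if_pos hxS, if_pos hyS] at h1
  linarith

theorem dd_le {c : ℕ} {x y : X} {v v' : V} (hs : Step p Mt c x y v v') (w : V) :
    Dd p S v' w ≤ Dd p S v w + 4 := by
  rcases opp H hs.mt w with h | h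
  · -- then undoing the step is towards `w`
    have := dd_step H (step_symm H hs) w h.2
    linarith
  · have := dd_step H hs w h.2
    linarith

theorem dd_mono {n : ℕ} {v w : V} (h : Mono G p Mt n v w) : Dd p S v w = 4 * n := by
  induction h with
  | nil w => simp [Dd]
  | cons ha hs ht _ ih =>
    rw [dd_step H hs _ ht, ih]; push_cast; ring

theorem good {n : ℕ} {a w : V} (h : Mono G p Mt n a w) : ∀ (v : V) (c : ℕ) (x y : X), G.Adj v a →
    Step p Mt c x y v a → ∃ m, Mono G p Mt m v w := by
  induction h with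
  | nil w =>
    intro v c x y ha hs
    exact ⟨1, Mono.cons ha hs (by have := hs.wx; omega) (Mono.nil w)⟩
  | @cons n a a1 w c' x' y' ha' hs' ht' hm' ih =>
    intro v c x y ha hs
    rcases opp H hs.mt w with ho | ho
    swap
    · exact ⟨n + 1 + 1, Mono.cons ha hs ho.2 (Mono.cons ha' hs' ht' hm')⟩
    have ho' := opp H hs'.mt w
    have hvx := hs.vx
    have hvy := hs.vy
    have hwx := hs.wx
    have hwy := hs.wy
    have hvx' := hs'.vx
    have hvy' := hs'.vy
    have hwx' := hs'.wx
    have hwy' := hs'.wy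
    have hxy : x ≠ y := by rintro rfl; omega
    have hxy' : x' ≠ y' := by rintro rfl; omega
    -- undoing
    have hundo : c' = c → x' = y → y' = x → ∃ m, Mono G p Mt m v w := by
      rintro rfl rfl rfl
      have : a1 = v := by
        apply H.inj
        intro z _
        by_cases hz1 : z = x'
        · subst hz1; omega
        · by_cases hz2 : z = y'
          · subst hz2; omega
          · rw [hs'.oth z hz1 hz2, hs.oth z hz2 hz1]
      subst this
      exact ⟨n, hm'⟩
    by_cases h1 : x' = x
    · subst h1; omega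
    by_cases h2 : y' = y
    · subst h2; omega
    by_cases h3 : x' = y
    · have hc : c' = c := by subst h3; omega
      refine hundo hc h3 ?_
      subst h3 hc
      exact H.uniq _ _ _ _ hs'.mt (H.symm _ _ _ hs.mt)
    by_cases h4 : y' = x
    · have hc : c' = c := by subst h4; omega
      refine hundo hc ?_ h4
      subst h4 hc
      exact H.uniq _ _ _ _ (H.symm _ _ _ hs'.mt) hs.mt
    -- disjoint labels
    have e1 : p a x' = p v x' := hs.oth _ h1 h3
    have e2 : p a y' = p v y' := hs.oth _ h4 h2
    obtain ⟨b, hb, hsb⟩ := H.avail v c' x' y' hs'.mt (by omega) (by omega)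
    have hbx' := hsb.wx
    have hby' := hsb.wy
    have e3 : p b x = p v x := hsb.oth _ (Ne.symm h1) (Ne.symm h4)
    have e4 : p b y = p v y := hsb.oth _ (Ne.symm h3) (Ne.symm h2)
    obtain ⟨a2, ha2, hsa2⟩ := H.avail b c x y hs.mt (by omega) (by omega)
    have hax := hsa2.wx
    have hay := hsa2.wy
    have : a2 = a1 := by
      apply H.inj
      intro z _
      by_cases z1 : z = x
      · subst z1
        rw [hs'.oth z (Ne.symm h1) (Ne.symm h4)]; omega
      by_cases z2 : z = y
      · subst z2
        rw [hs'.oth z (Ne.symm h3) (Ne.symm h2)]; omega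
      by_cases z3 : z = x'
      · subst z3
        rw [hsa2.oth z z1 z2]; omega
      by_cases z4 : z = y'
      · subst z4
        rw [hsa2.oth z z1 z2]; omega
      rw [hsa2.oth z z1 z2, hsb.oth z z3 z4, hs'.oth z z3 z4, hs.oth z z1 z2]
    subst this
    obtain ⟨m, hm⟩ := ih b c x y ha2 hsa2
    exact ⟨m + 1, Mono.cons hb hsb ht' hm⟩

theorem all_mono (v w : V) : ∃ n, Mono G p Mt n v w := by
  have hr : Relation.ReflTransGen G.Adj v w :=
    (SimpleGraph.reachable_iff_reflTransGen _ _).1 (H.conn.preconnected v w)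
  induction hr using Relation.ReflTransGen.head_induction_on with
  | refl => exact ⟨0, Mono.nil w⟩
  | @head a b hab _ ih =>
    obtain ⟨n, hn⟩ := ih
    obtain ⟨c, x, y, hs⟩ := H.adj _ _ hab
    exact good H hn a c x y hab hs

theorem mono_walk {n : ℕ} {v w : V} (h : Mono G p Mt n v w) : ∃ q : G.Walk v w, q.length = n := by
  induction h with
  | nil w => exact ⟨SimpleGraph.Walk.nil, rfl⟩
  | cons ha hs ht _ ih =>
    obtain ⟨q, hq⟩ := ih
    exact ⟨SimpleGraph.Walk.cons ha q, by simp [hq]⟩

theorem dd_walk {v w : V} (q : G.Walk v w) : Dd p S v w ≤ 4 * q.length := by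
  induction q with
  | nil => simp [Dd]
  | @cons a b c hab q ih =>
    obtain ⟨c', x, y, hs⟩ := H.adj _ _ hab
    have := dd_le H (step_symm H hs) c
    rw [SimpleGraph.Walk.length_cons]
    push_cast
    linarith

theorem dist_eq (v w : V) : Dd p S v w = 4 * (G.dist v w : ℤ) := by
  obtain ⟨n, hn⟩ := all_mono H v w
  obtain ⟨q, hq⟩ := mono_walk H hn
  have h1 := dd_mono H hn
  have h2 : G.dist v w ≤ n := by rw [← hq]; exact SimpleGraph.dist_le q
  obtain ⟨q', hq'⟩ := (H.conn.preconnected v w).exists_walk_length_eq_dist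
  have h3 := dd_walk H q'
  rw [hq'] at h3
  have h4 : (G.dist v w : ℤ) ≤ n := by exact_mod_cast h2
  linarith

/-- the key lemma -/
theorem common {n : ℕ} {m u : V} (h : Mono G p Mt n m u) : ∀ (v : V) (x : X), x ∈ S →
    ((p m x < p u x ∧ p m x < p v x) ∨ (p u x < p m x ∧ p v x < p m x)) →
    ∃ (m' : V) (c : ℕ) (x' y' : X), Step p Mt c x' y' m m' ∧ c < p u x' ∧ c < p v x' := by
  induction h with
  | nil w =>
    intro v x _ hx
    omega
  | @cons n a a1 u c1 x1 y1 ha hs ht hm ih =>
    intro v x hxS hx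
    rcases opp H hs.mt v with ho | ho
    swap
    · exact ⟨a1, c1, x1, y1, hs, ht, ho.2⟩
    have hou := opp H hs.mt u
    have hvx := hs.vx
    have hvy := hs.vy
    have hwx := hs.wx
    have hwy := hs.wy
    have hne1 : x ≠ x1 := by rintro rfl; omega
    have hne2 : x ≠ y1 := by rintro rfl; omega
    obtain ⟨m', c, x', y', hs', h1, h2⟩ := ih v x hxS (by rw [hs.oth x hne1 hne2]; exact hx)
    have hou' := opp H hs'.mt u
    have hov' := opp H hs'.mt v
    have hvx' := hs'.vx
    have hvy' := hs'.vy
    have d1 : x' ≠ x1 := by rintro rfl; omega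
    have d2 : x' ≠ y1 := by rintro rfl; omega
    have d3 : y' ≠ x1 := by rintro rfl; omega
    have d4 : y' ≠ y1 := by rintro rfl; omega
    have e1 : p a1 x' = p a x' := hs.oth _ d1 d2
    have e2 : p a1 y' = p a y' := hs.oth _ d3 d4
    obtain ⟨b, _, hsb⟩ := H.avail a c x' y' hs'.mt (by omega) (by omega)
    exact ⟨b, c, x', y', hsb, h1, h2⟩

theorem sum_between {v w m : V} (h : Dd p S v m + Dd p S m w = Dd p S v w) : ∀ x ∈ S,
    (p v x ≤ p m x ∧ p m x ≤ p w x) ∨ (p w x ≤ p m x ∧ p m x ≤ p v x) := by
  have h1 : ∀ x ∈ S, |(p v x : ℤ) - p w x| ≤ |(p v x : ℤ) - p m x| + |(p m x : ℤ) - p w x| := by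
    intro x _
    exact abs_sub_le _ _ _
  have h2 : ∑ x ∈ S, (|(p v x : ℤ) - p m x| + |(p m x : ℤ) - p w x| - |(p v x : ℤ) - p w x|) = 0 := by
    rw [Finset.sum_sub_distrib, Finset.sum_add_distrib]
    unfold Dd at h
    linarith
  rw [Finset.sum_eq_zero_iff_of_nonneg (fun x hx => by linarith [h1 x hx])] at h2
  intro x hx
  have h3 := h2 x hx
  by_contra hcon
  push Not at hcon
  obtain ⟨h4, h5⟩ := hcon
  rcases le_total (p v x) (p w x) with h6 | h6
  · rcases lt_or_ge (p m x) (p v x) with h7 | h7
    · rw [abs_of_nonneg (by omega), abs_of_nonpos (by omega), abs_of_nonpos (by omega)] at h3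
      omega
    · have h8 := h4 h7
      rw [abs_of_nonpos (by omega), abs_of_nonneg (by omega), abs_of_nonpos (by omega)] at h3
      omega
  · rcases lt_or_ge (p m x) (p w x) with h7 | h7
    · rw [abs_of_nonneg (by omega), abs_of_nonpos (by omega), abs_of_nonneg (by omega)] at h3
      omega
    · have h8 := h5 h7
      rw [abs_of_nonpos (by omega), abs_of_nonneg (by omega), abs_of_nonneg (by omega)] at h3
      omega

theorem between_sum {v w m : V} (h : ∀ x ∈ S,
    (p v x ≤ p m x ∧ p m x ≤ p w x) ∨ (p w x ≤ p m x ∧ p m x ≤ p v x)) :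
    Dd p S v m + Dd p S m w = Dd p S v w := by
  unfold Dd
  rw [← Finset.sum_add_distrib]
  refine Finset.sum_congr rfl fun x hx => ?_
  rcases h x hx with h1 | h1
  · rw [abs_of_nonpos (by omega), abs_of_nonpos (by omega), abs_of_nonpos (by omega)]; ring
  · rw [abs_of_nonneg (by omega), abs_of_nonneg (by omega), abs_of_nonneg (by omega)]; ring

/-- **The abstract median theorem.** -/
theorem median : IsMedianGraph G := by
  classical
  refine ⟨H.conn, ?_⟩
  intro u v w
  have hd : ∀ a b c : V, (G.dist a b + G.dist b c = G.dist a c ↔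
      Dd p S a b + Dd p S b c = Dd p S a c) := by
    intro a b c
    rw [dist_eq H, dist_eq H, dist_eq H]
    omega
  have hnn : ∀ a b : V, 0 ≤ Dd p S a b := fun a b => Finset.sum_nonneg fun x _ => abs_nonneg _
  -- a minimiser
  obtain ⟨m, hm⟩ : ∃ m : V, ∀ m' : V, Dd p S m u + Dd p S m v + Dd p S m w ≤
      Dd p S m' u + Dd p S m' v + Dd p S m' w := by
    let F : V → ℕ := fun m => (Dd p S m u + Dd p S m v + Dd p S m w).toNat
    obtain ⟨m, _, hm⟩ := (WellFounded.has_min (measure F).wf Set.univ ⟨u, trivial⟩)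
    refine ⟨m, fun m' => ?_⟩
    have h1 := hm m' trivial
    have h2 : ¬ F m' < F m := h1
    have := hnn m u
    have := hnn m v
    have := hnn m w
    have := hnn m' u
    have := hnn m' v
    have := hnn m' w
    simp only [F] at h2
    omega
  have key : ∀ a b c : V, (∀ m' : V, Dd p S m a + Dd p S m b + Dd p S m c ≤
      Dd p S m' a + Dd p S m' b + Dd p S m' c) → ∀ x ∈ S,
      (p a x ≤ p m x ∧ p m x ≤ p b x) ∨ (p b x ≤ p m x ∧ p m x ≤ p a x) := by
    intro a b c hmin x hx
    by_contra hcon
    push Not at hcon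
    obtain ⟨n, hn⟩ := all_mono H m a
    obtain ⟨m', c', x', y', hs, h1, h2⟩ := common H hn b x hx (by omega)
    have h3 := dd_step H hs a h1
    have h4 := dd_step H hs b h2
    have h5 := dd_le H hs c
    have h6 := hmin m'
    linarith
  have k1 := key u v w hm
  have k2 := key v w u (fun m' => by have := hm m'; linarith)
  have k3 := key u w v (fun m' => by have := hm m'; linarith)
  refine ⟨m, ⟨?_, ?_, ?_⟩, ?_⟩
  · rw [hd]; exact between_sum H k1
  · rw [hd]; exact between_sum H k2
  · rw [hd]; exact between_sum H k3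
  · rintro m' ⟨h1, h2, h3⟩
    rw [hd] at h1 h2 h3
    apply H.inj
    intro x hx
    have a1 := sum_between H h1 x hx
    have a2 := sum_between H h2 x hx
    have a3 := sum_between H h3 x hx
    have b1 := k1 x hx
    have b2 := k2 x hx
    have b3 := k3 x hx
    omega

end

end V11176.Braid
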