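import Pool.Agent.V11176.Braid.Abs

set_option autoImplicit false

open Finset

namespace V11176.Braid

section inj
variable {B : Type*} (M : CoxeterMatrix B)

open Classical in
/-- the (dual) geometric representation of a simply-laced Coxeter group over the integers -/
noncomputable def cf (i k : B) : ℤ := if k = i then 2 else if M i k = 3 then -1 else 0

/-- the action of a generator -/
noncomputable def act (i : B) : Function.End (B → ℤ) := fun v k => v k - cf M i k * v i

theorem cf_self (i : B) : cf M i i = 2 := by simp [cf]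

theorem cf_ne {i j : B} (h : i ≠ j) : cf M i j = if M i j = 3 then -1 else 0 := by
  simp [cf, Ne.symm h]

theorem act_liftable (hM : ∀ i j, i ≠ j → M i j = 2 ∨ M i j = 3) : M.IsLiftable (act M) := by
  intro i j
  by_cases hij : i = j
  · subst hij
    rw [M.diagonal, pow_one]
    funext v k
    show (v k - cf M i k * v i) - cf M i k * (v i - cf M i i * v i) = v k
    rw [cf_self]; ring
  · have hsym : M j i = M i j := M.symmetric j i
    rcases hM i j hij with h | h
    · have h1 : cf M i j = 0 := by rw [cf_ne M hij, h]; simp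
      have h2 : cf M j i = 0 := by rw [cf_ne M (Ne.symm hij), hsym, h]; simp
      rw [show M.M i j = 2 from h]
      funext v k
      rw [pow_two]
      show act M i (act M j (act M i (act M j v))) k = v k
      unfold act
      simp only [h1, h2, cf_self]
      ring
    · have h1 : cf M i j = -1 := by rw [cf_ne M hij, h]; simp
      have h2 : cf M j i = -1 := by rw [cf_ne M (Ne.symm hij), hsym, h]; simp
      rw [show M.M i j = 3 from h]
      funext v k
      rw [pow_succ, pow_two]
      show act M i (act M j (act M i (act M j (act M i (act M j v))))) k = v k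
      unfold act
      simp only [h1, h2, cf_self]
      ring

theorem simple_inj {W : Type*} [Group W] (cs : CoxeterSystem M W)
    (hM : ∀ i j, i ≠ j → M i j = 2 ∨ M i j = 3) : Function.Injective cs.simple := by
  classical
  intro i j hij
  by_contra hne
  have h1 := cs.lift_apply_simple (act_liftable M hM) i
  have h2 := cs.lift_apply_simple (act_liftable M hM) j
  rw [hij, h2] at h1
  have h3 : act M j (Pi.single i 1) i = act M i (Pi.single i 1) i := by rw [h1]
  unfold act at h3
  simp only [Pi.single_eq_same, Pi.single_eq_of_ne (Ne.symm hne), cf_self] at h3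
  norm_num at h3

end inj

section words
variable {B W : Type*} [Group W] {M : CoxeterMatrix B} (cs : CoxeterSystem M W)

/-- a braid move -/
def BraidMove (M : CoxeterMatrix B) (v w : List B) : Prop :=
  ∃ (l₁ l₂ : List B) (s t : B), M s t = 3 ∧ v = l₁ ++ [s, t, s] ++ l₂ ∧ w = l₁ ++ [t, s, t] ++ l₂

/-- a braid move with center `c` -/
def Mv (M : CoxeterMatrix B) (c : ℕ) (v w : List B) : Prop :=
  ∃ (l₁ l₂ : List B) (s t : B), M s t = 3 ∧ v = l₁ ++ s :: t :: s :: l₂ ∧ w = l₁ ++ t :: s :: t :: l₂ ∧
    l₁.length + 1 = c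

theorem braidMove_iff {v w : List B} : BraidMove M v w ↔ ∃ c, Mv M c v w := by
  constructor
  · rintro ⟨l₁, l₂, s, t, h, rfl, rfl⟩
    exact ⟨_, l₁, l₂, s, t, h, by simp, by simp, rfl⟩
  · rintro ⟨c, l₁, l₂, s, t, h, rfl, rfl, _⟩
    exact ⟨l₁, l₂, s, t, h, by simp, by simp⟩

theorem Mv.symm {c : ℕ} {v w : List B} (h : Mv M c v w) : Mv M c w v := by
  obtain ⟨l₁, l₂, s, t, h, rfl, rfl, hc⟩ := h
  exact ⟨l₁, l₂, t, s, by rw [← h]; exact M.symmetric t s, rfl, rfl, hc⟩

theorem BraidMove.symm {v w : List B} (h : BraidMove M v w) : BraidMove M w v := by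
  rw [braidMove_iff] at h ⊢
  obtain ⟨c, h⟩ := h
  exact ⟨c, h.symm⟩

theorem lis_cons (i : B) (l : List B) : cs.leftInvSeq (i :: l) =
    cs.simple i :: (cs.leftInvSeq l).map (MulAut.conj (cs.simple i)) := rfl

theorem lis_append (l₁ l₂ : List B) : cs.leftInvSeq (l₁ ++ l₂) =
    cs.leftInvSeq l₁ ++ (cs.leftInvSeq l₂).map (MulAut.conj (cs.wordProd l₁)) := by
  induction l₁ with
  | nil => simp
  | cons i l ih =>
    rw [List.cons_append, lis_cons, lis_cons, ih, List.map_append, List.cons_append, List.map_map,
      cs.wordProd_cons]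
    congr 2
    apply List.map_congr_left
    intro x _
    simp [mul_assoc]

theorem lis_triple (l₁ l₂ : List B) (s t s' : B) : cs.leftInvSeq (l₁ ++ s :: t :: s' :: l₂) =
    cs.leftInvSeq l₁ ++
    (cs.wordProd l₁ * cs.simple s * (cs.wordProd l₁)⁻¹) ::
    (cs.wordProd l₁ * (cs.simple s * cs.simple t * cs.simple s) * (cs.wordProd l₁)⁻¹) ::
    (cs.wordProd l₁ * (cs.simple s * cs.simple t * cs.simple s' * cs.simple t * cs.simple s) *
      (cs.wordProd l₁)⁻¹) ::
    (cs.leftInvSeq l₂).map (MulAut.conj (cs.wordProd l₁ * (cs.simple s * cs.simple t * cs.simple s'))) := by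
  rw [lis_append]
  congr 1
  simp only [CoxeterSystem.leftInvSeq, List.map_cons, List.map_map, MulAut.conj_apply, mul_assoc,
    CoxeterSystem.inv_simple]
  congr 3
  apply List.map_congr_left
  intro a _
  simp [mul_assoc]

theorem braid_rel {s t : B} (h : M s t = 3) :
    cs.simple s * cs.simple t * cs.simple s = cs.simple t * cs.simple s * cs.simple t := by
  have h1 := cs.simple_mul_simple_pow s t
  rw [show M.M s t = 3 from h, pow_succ, pow_two] at h1
  have hs := cs.simple_mul_simple_self s
  have ht := cs.simple_mul_simple_self t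
  calc cs.simple s * cs.simple t * cs.simple s
      = (cs.simple s * cs.simple t * (cs.simple s * cs.simple t) * (cs.simple s * cs.simple t)) *
        (cs.simple t * cs.simple s * cs.simple t) := by
        simp only [mul_assoc]
        rw [cs.simple_mul_simple_cancel_left t, cs.simple_mul_simple_cancel_left s, ht, mul_one]
    _ = _ := by rw [h1, one_mul]

theorem lis_inj (hM : ∀ i j, i ≠ j → M i j = 2 ∨ M i j = 3) : ∀ v w : List B,
    cs.leftInvSeq v = cs.leftInvSeq w → v = w := by
  intro v
  induction v with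
  | nil =>
    intro w h
    cases w with
    | nil => rfl
    | cons j w => rw [lis_cons] at h; simp at h
  | cons i v ih =>
    intro w h
    cases w with
    | nil => rw [lis_cons] at h; simp at h
    | cons j w =>
      rw [lis_cons, lis_cons, List.cons.injEq] at h
      have h1 := simple_inj M cs hM h.1
      subst h1
      rw [ih w (List.map_injective_iff.2 (MulAut.conj (cs.simple i)).injective h.2)]

/-- a word containing `s t s` with `sts = t` is not reduced -/
theorem not_red {l₁ l₂ : List B} {s t : B}
    (h : cs.simple s * cs.simple t * cs.simple s = cs.simple t)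
    (hr : cs.IsReduced (l₁ ++ s :: t :: s :: l₂)) : False := by
  have h1 : cs.wordProd (l₁ ++ s :: t :: s :: l₂) = cs.wordProd (l₁ ++ t :: l₂) := by
    simp only [cs.wordProd_append, cs.wordProd_cons]
    conv_rhs => rw [← h]
    simp only [mul_assoc]
  have h2 := cs.length_wordProd_le (l₁ ++ t :: l₂)
  have h3 := hr.eq
  rw [h1] at h3
  rw [h3] at h2
  simp at h2

/-- positions of the reflections -/
noncomputable def pos (v : List B) (z : W) : ℕ :=
  open Classical in (cs.leftInvSeq v).idxOf z

open Classical in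
theorem idx_swap {α : Type*} {A C : List α} {x b y : α} (hnd : (A ++ x :: b :: y :: C).Nodup) :
    (A ++ x :: b :: y :: C).idxOf x = A.length ∧ (A ++ x :: b :: y :: C).idxOf b = A.length + 1 ∧
    (A ++ x :: b :: y :: C).idxOf y = A.length + 2 ∧
    ∀ z, z ≠ x → z ≠ y → (A ++ y :: b :: x :: C).idxOf z = (A ++ x :: b :: y :: C).idxOf z := by
  have h := hnd
  rw [List.nodup_append'] at h
  obtain ⟨_, h2, h3⟩ := h
  have hx : x ∉ A := fun h => h3 h (by simp)
  have hb : b ∉ A := fun h => h3 h (by simp)
  have hy : y ∉ A := fun h => h3 h (by simp)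
  simp only [List.nodup_cons, List.mem_cons, not_or] at h2
  obtain ⟨⟨hxb, hxy, _⟩, ⟨hby, _⟩, _⟩ := h2
  refine ⟨?_, ?_, ?_, ?_⟩
  · rw [List.idxOf_append, if_neg hx, List.idxOf_cons_self, Nat.zero_add]
  · rw [List.idxOf_append, if_neg hb, List.idxOf_cons_ne _ hxb, List.idxOf_cons_self]
    omega
  · rw [List.idxOf_append, if_neg hy, List.idxOf_cons_ne _ hxy, List.idxOf_cons_ne _ hby,
      List.idxOf_cons_self]
    omega
  · intro z hz1 hz2
    by_cases hzA : z ∈ A
    · rw [List.idxOf_append, if_pos hzA, List.idxOf_append, if_pos hzA]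
    · rw [List.idxOf_append, if_neg hzA, List.idxOf_append, if_neg hzA]
      congr 1
      rw [List.idxOf_cons_ne _ (Ne.symm hz2), List.idxOf_cons_ne _ (Ne.symm hz1)]
      by_cases hzb : z = b
      · rw [hzb, List.idxOf_cons_self, List.idxOf_cons_self]
      · rw [List.idxOf_cons_ne _ (Ne.symm hzb), List.idxOf_cons_ne _ (Ne.symm hzb),
          List.idxOf_cons_ne _ (Ne.symm hz1), List.idxOf_cons_ne _ (Ne.symm hz2)]

/-- all the information on a braid move -/
structure Info (c : ℕ) (v w : List B) (x b y : W) : Prop where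
  mv : Mv M c v w
  vx : pos cs v x + 1 = c
  vb : pos cs v b = c
  vy : pos cs v y = c + 1
  wx : pos cs w x = c + 1
  wb : pos cs w b = c
  wy : pos cs w y + 1 = c
  oth : ∀ z, z ≠ x → z ≠ y → pos cs w z = pos cs v z
  r1 : x * b * x = y
  r2 : b * x * b = y
  r3 : x * y * x = b
  r4 : y * x * y = b
  r5 : b * y * b = x
  r6 : y * b * y = x
  mx : x ∈ cs.leftInvSeq v
  mb : b ∈ cs.leftInvSeq v
  my : y ∈ cs.leftInvSeq v
  perm : (cs.leftInvSeq v).Perm (cs.leftInvSeq w)

theorem prod_eq {c : ℕ} {v w : List B} (h : Mv M c v w) : cs.wordProd v = cs.wordProd w := by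
  obtain ⟨l₁, l₂, s, t, h, rfl, rfl, _⟩ := h
  have := braid_rel cs h
  simp only [cs.wordProd_append, cs.wordProd_cons]
  rw [← mul_assoc (cs.simple s), ← mul_assoc (cs.simple s * cs.simple t), this]
  simp only [mul_assoc]

theorem len_eq {c : ℕ} {v w : List B} (h : Mv M c v w) : v.length = w.length := by
  obtain ⟨l₁, l₂, s, t, h, rfl, rfl, _⟩ := h
  simp

theorem red_mv {c : ℕ} {v w : List B} (h : Mv M c v w) (hr : cs.IsReduced v) : cs.IsReduced w := by
  have h1 := hr.eq
  rw [prod_eq cs h, len_eq h] at h1
  exact h1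

theorem info {c : ℕ} {v w : List B} (h : Mv M c v w) (hr : cs.IsReduced v) :
    ∃ x b y, Info cs c v w x b y := by
  classical
  have hrw := red_mv cs h hr
  have hmv := h
  obtain ⟨l₁, l₂, s, t, h, rfl, rfl, hc⟩ := h
  have hst := braid_rel cs h
  have hs := cs.simple_mul_simple_self s
  have ht := cs.simple_mul_simple_self t
  have e1 : cs.simple s * cs.simple t * cs.simple s * cs.simple t * cs.simple s = cs.simple t := by
    rw [hst]
    rw [mul_assoc (cs.simple t * cs.simple s), ht, mul_one, mul_assoc, hs, mul_one]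
  have e2 : cs.simple t * cs.simple s * cs.simple t * cs.simple s * cs.simple t = cs.simple s := by
    rw [← hst]
    rw [mul_assoc (cs.simple s * cs.simple t), hs, mul_one, mul_assoc, ht, mul_one]
  have hL1 := lis_triple cs l₁ l₂ s t s
  have hL2 := lis_triple cs l₁ l₂ t s t
  rw [e1] at hL1
  rw [e2, ← hst] at hL2
  have hn1 := hr.nodup_leftInvSeq
  have hn2 := hrw.nodup_leftInvSeq
  set u := cs.wordProd l₁ with hu
  set x := u * cs.simple s * u⁻¹ with hx
  set y := u * cs.simple t * u⁻¹ with hy
  set b := u * (cs.simple s * cs.simple t * cs.simple s) * u⁻¹ with hb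
  set C := (cs.leftInvSeq l₂).map (MulAut.conj (u * (cs.simple s * cs.simple t * cs.simple s))) with hC
  have hlen : (cs.leftInvSeq l₁).length = l₁.length := cs.length_leftInvSeq l₁
  rw [hL1] at hn1
  rw [hL2] at hn2
  obtain ⟨a1, a2, a3, a4⟩ := idx_swap hn1
  obtain ⟨b1, b2, b3, _⟩ := idx_swap hn2
  have hxx : x * x = 1 := by
    rw [hx]
    calc u * cs.simple s * u⁻¹ * (u * cs.simple s * u⁻¹) = u * (cs.simple s * cs.simple s) * u⁻¹ := by
          group
      _ = 1 := by rw [hs]; simp
  have hyy : y * y = 1 := by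
    rw [hy]
    calc u * cs.simple t * u⁻¹ * (u * cs.simple t * u⁻¹) = u * (cs.simple t * cs.simple t) * u⁻¹ := by
          group
      _ = 1 := by rw [ht]; simp
  have hbx : b = x * y * x := by
    rw [hb, hx, hy]; group
  have hby : b = y * x * y := by
    rw [hb, hst, hx, hy]; group
  refine ⟨x, b, y, ?_⟩
  constructor
  · exact hmv
  · unfold pos; rw [hL1, a1, hlen]; exact hc
  · unfold pos; rw [hL1, a2, hlen]; exact hc
  · unfold pos; rw [hL1, a3, hlen]; omega
  · unfold pos; rw [hL2, b3, hlen]; omega
  · unfold pos; rw [hL2, b2, hlen]; exact hc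
  · unfold pos; rw [hL2, b1, hlen]; exact hc
  · intro z hz1 hz2
    unfold pos; rw [hL2, hL1]; exact a4 z hz1 hz2
  · rw [hbx]
    calc x * (x * y * x) * x = (x * x) * y * (x * x) := by group
      _ = y := by rw [hxx]; simp
  · calc b * x * b = (x * y * x) * x * (y * x * y) := by rw [← hbx, ← hby]
      _ = x * y * (x * x) * y * x * y := by group
      _ = x * (y * y) * x * y := by rw [hxx]; group
      _ = (x * x) * y := by rw [hyy]; group
      _ = y := by rw [hxx]; simp
  · exact hbx.symm
  · exact hby.symm
  · calc b * y * b = (y * x * y) * y * (x * y * x) := by rw [← hbx, ← hby]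
      _ = y * x * (y * y) * x * y * x := by group
      _ = y * (x * x) * y * x := by rw [hyy]; group
      _ = (y * y) * x := by rw [hxx]; group
      _ = x := by rw [hyy]; simp
  · rw [hby]
    calc y * (y * x * y) * y = (y * y) * x * (y * y) := by group
      _ = x := by rw [hyy]; simp
  · rw [hL1]; simp
  · rw [hL1]; simp
  · rw [hL1]; simp
  · rw [hL1, hL2]
    apply List.Perm.append_left
    exact (List.Perm.swap _ _ _).trans (((List.Perm.swap _ _ _).cons _).trans (List.Perm.swap _ _ _))

end words

end V11176.Braid
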